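import Pool.Agent.Helper18.EW.Goals2

/-!
# PG: prices of the whole play (project EW of helper18, MP_d3128a_ag)
-/

set_option autoImplicit false

namespace Pool.Agent.Helper16.EW

open Finset
open Pool.Agent.Helper43.Hw (T na va lz Play)
open Pool.Agent.Helper43.Gm (Pri st mv nn)
open Pool.Agent.Helper18.EW

/-! ### One point: comparison of the rows -/

/-- the sum in `GoalPA` -/
def F (r δ : ℕ → ℕ) (ρ y z : ℕ) : ℕ := ∑ t ∈ (Ico y z).filter (fun t => r t = ρ), δ t

theorem F_left {r δ : ℕ → ℕ} {ρ y z : ℕ} (h : y < z) :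
    F r δ ρ y z = (if r y = ρ then δ y else 0) + F r δ ρ (y + 1) z := by
  unfold F
  rw [sum_filter, sum_filter, Finset.sum_eq_sum_Ico_succ_bot h]

theorem F_right {r δ : ℕ → ℕ} {ρ y z : ℕ} (h : y ≤ z) :
    F r δ ρ y (z + 1) = F r δ ρ y z + (if r z = ρ then δ z else 0) := by
  unfold F
  rw [sum_filter, sum_filter, Finset.sum_Ico_succ_top h]

theorem F_self {r δ : ℕ → ℕ} {ρ y : ℕ} : F r δ ρ y y = 0 := by
  unfold F; simp

theorem rmono {R : ℕ} {r : ℕ → ℕ} (hr : ∀ t, t + 1 < R → r t ≤ r (t + 1)) {a b : ℕ}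
    (hab : a ≤ b) (hb : b < R) : r a ≤ r b := by
  induction b, hab using Nat.le_induction with
  | base => exact le_rfl
  | succ n hn ih => exact (ih (by omega)).trans (hr n hb)

theorem F_zero {R : ℕ} {r δ : ℕ → ℕ} {ρ y z : ℕ} (hr : ∀ t, t + 1 < R → r t ≤ r (t + 1))
    (hy : ρ < r y) (hz : z ≤ R) : F r δ ρ y z = 0 := by
  unfold F
  rw [filter_false_of_mem]
  · simp
  · intro t ht
    rw [mem_Ico] at ht
    have := rmono hr ht.1 (by omega)
    omega

/-- the size of the step from the row `t` -/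
def dl (R : ℕ) (r P : ℕ → ℕ) (t : ℕ) : ℕ :=
  if r t = r (t + 1) then (P t - P (t + 1)) * (R + 2) + 1 else P t * (R + 2) + 1

theorem blockB {R ρ e : ℕ} {r P : ℕ → ℕ} (hr : ∀ t, t + 1 < R → r t ≤ r (t + 1))
    (hP : ∀ t, t + 1 < R → r t = ρ → r (t + 1) = ρ → P (t + 1) + e ≤ P t)
    {y : ℕ} (hy : r y = ρ) (n : ℕ) (hn : y + n < R) (hz : r (y + n) = ρ) :
    e * (R + 2) * n + n ≤ F r (dl R r P) ρ y (y + n) ∧ P (y + n) + e * n ≤ P y := by
  induction n with
  | zero => simp
  | succ n ih =>
    have h1 : r (y + n) = ρ := by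
      have h2 := rmono hr (by omega : y ≤ y + n) (by omega)
      have h3 := rmono hr (by omega : y + n ≤ y + (n + 1)) hn
      omega
    obtain ⟨h2, h3⟩ := ih (by omega) h1
    have h4 := hP (y + n) (by omega) h1 hz
    have h5 : F r (dl R r P) ρ y (y + (n + 1)) = F r (dl R r P) ρ y (y + n) +
        dl R r P (y + n) := by
      rw [← add_assoc, F_right (by omega), if_pos h1]
    have h6 : e * (R + 2) + 1 ≤ dl R r P (y + n) := by
      unfold dl
      rw [if_pos (by rw [h1]; exact hz.symm)]
      have h7 : e ≤ P (y + n) - P (y + n + 1) := by omega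
      have := Nat.mul_le_mul_right (R + 2) h7
      omega
    constructor
    · rw [h5]
      calc e * (R + 2) * (n + 1) + (n + 1) = (e * (R + 2) * n + n) + (e * (R + 2) + 1) := by ring
        _ ≤ _ := Nat.add_le_add h2 h6
    · have h8 : P (y + (n + 1)) + e ≤ P (y + n) := h4
      calc P (y + (n + 1)) + e * (n + 1) = (P (y + (n + 1)) + e) + e * n := by ring
        _ ≤ P (y + n) + e * n := by omega
        _ ≤ P y := h3

theorem blockC {R ρ e : ℕ} {r P : ℕ → ℕ} (hr : ∀ t, t + 1 < R → r t ≤ r (t + 1))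
    (hP : ∀ t, t + 1 < R → r t = ρ → r (t + 1) = ρ → P (t + 1) + e ≤ P t)
    {z : ℕ} (hzR : z < R) (hz : ρ < r z) (n : ℕ) :
    ∀ y, y + n = z → r y = ρ → ∃ k, 1 ≤ k ∧ k ≤ n ∧
      F r (dl R r P) ρ y z = P y * (R + 2) + k := by
  induction n with
  | zero =>
    intro y h1 h2
    exfalso
    have : y = z := by omega
    rw [this] at h2
    omega
  | succ n ih =>
    intro y h1 h2
    have h3 : y < z := by omega
    rw [F_left h3, if_pos h2]
    by_cases h4 : r (y + 1) = ρ
    · obtain ⟨k, k1, k2, k3⟩ := ih (y + 1) (by omega) h4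
      refine ⟨k + 1, by omega, by omega, ?_⟩
      rw [k3]
      unfold dl
      rw [if_pos (by rw [h2, h4])]
      have h5 := hP y (by omega) h2 h4
      have h6 : P y = (P y - P (y + 1)) + P (y + 1) := by omega
      have h7 : P y * (R + 2) = (P y - P (y + 1)) * (R + 2) + P (y + 1) * (R + 2) := by
        rw [← add_mul, ← h6]
      omega
    · have h5 : ρ < r (y + 1) := by
        have := hr y (by omega)
        omega
      rw [F_zero hr h5 hzR.le]
      unfold dl
      rw [if_neg (by rw [h2]; exact fun h => h4 h.symm)]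
      exact ⟨1, le_rfl, by omega, by ring⟩

/-- the conclusions of `GoalPA` for one point -/
structure One (R : ℕ) (r P : ℕ → ℕ) (ρ e : ℕ) (V : ℕ → ℤ) : Prop where
  r1 : ∀ t, t + 1 < R → r t ≤ r (t + 1)
  e1 : 1 ≤ e
  P1 : ∀ t, t + 1 < R → r t = ρ → r (t + 1) = ρ → P (t + 1) + e ≤ P t
  a : ∀ y z, y < z → z < R → r y < ρ → V y < V z
  b : ∀ y z, y < z → z < R → ρ ≤ r y → e * (R + 2) * (z - y) < F r (dl R r P) ρ y z → V y < V z
  c : ∀ y z, y < z → z < R → ρ ≤ r y → F r (dl R r P) ρ y z < e * (R + 2) * (z - y) → V z < V y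

namespace One
variable {R : ℕ} {r P : ℕ → ℕ} {ρ e : ℕ} {V : ℕ → ℤ}

theorem in_in (h : One R r P ρ e V) {y z : ℕ} (h1 : y < z) (h2 : z < R) (h3 : r y = ρ)
    (h4 : r z = ρ) : V y < V z ∧ P z + e * (z - y) ≤ P y := by
  obtain ⟨n, rfl⟩ : ∃ n, z = y + n := ⟨z - y, by omega⟩
  obtain ⟨h5, h6⟩ := blockB h.r1 h.P1 h3 n h2 h4
  refine ⟨h.b _ _ h1 h2 h3.ge ?_, ?_⟩
  · have h7 : y + n - y = n := by omega
    rw [h7]
    omega
  · have h7 : y + n - y = n := by omega
    rw [h7]
    exact h6

theorem in_out (h : One R r P ρ e V) {y z : ℕ} (h1 : y < z) (h2 : z < R) (h3 : r y = ρ)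
    (h4 : ρ < r z) : (e * (z - y) ≤ P y → V y < V z) ∧ (P y < e * (z - y) → V z < V y) := by
  obtain ⟨k, k1, k2, k3⟩ := blockC h.r1 h.P1 h2 h4 (z - y) y (by omega) h3
  constructor
  · intro h5
    refine h.b _ _ h1 h2 h3.ge ?_
    rw [k3]
    have h6 := Nat.mul_le_mul_right (R + 2) h5
    have h7 : e * (R + 2) * (z - y) = e * (z - y) * (R + 2) := by ring
    omega
  · intro h5
    refine h.c _ _ h1 h2 h3.ge ?_
    rw [k3]
    have h6 := Nat.mul_le_mul_right (R + 2) (Nat.succ_le_of_lt h5)
    have h7 : e * (R + 2) * (z - y) = e * (z - y) * (R + 2) := by ring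
    have h8 : (P y).succ * (R + 2) = P y * (R + 2) + (R + 2) := by
      rw [Nat.succ_mul]
    omega

theorem out_out (h : One R r P ρ e V) {y z : ℕ} (h1 : y < z) (h2 : z < R) (h3 : ρ < r y) :
    V z < V y := by
  refine h.c _ _ h1 h2 h3.le ?_
  rw [F_zero h.r1 h3 h2.le]
  have := h.e1
  have h4 : 0 < z - y := by omega
  positivity

/-- a row before the block -/
theorem before (h : One R r P ρ e V) {y y' : ℕ} (h1 : y < R) (h2 : r y < ρ) (h3 : y' < y) :
    V y' < V y :=
  h.a _ _ h3 h1 (lt_of_le_of_lt (rmono h.r1 h3.le h1) h2)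

/-- a row in the block -/
theorem inside (h : One R r P ρ e V) {y y' : ℕ} (h1 : y < R) (h2 : r y = ρ) (h3 : y' < R)
    (h4 : y' ≠ y) (h5 : y < y' → P y < e * (y' - y)) : V y' < V y := by
  rcases lt_or_gt_of_ne h4 with h6 | h6
  · have h7 := rmono h.r1 h6.le h1
    rcases Nat.lt_or_ge (r y') ρ with h8 | h8
    · exact h.a _ _ h6 h1 h8
    · exact (h.in_in h6 h1 (by omega) h2).1
  · have h7 := h5 h6
    have h8 := rmono h.r1 h6.le h3
    have h9 : ρ < r y' := by
      by_contra h10
      have := (h.in_in h6 h3 h2 (by omega)).2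
      omega
    exact (h.in_out h6 h3 h2 h9).2 h7

/-- a row after the block -/
theorem after (h : One R r P ρ e V) {y y' : ℕ} (h1 : y < R) (h2 : ρ < r y) (h3 : y' < R)
    (h4 : y' ≠ y) (h5 : y' < y → r y' ≤ ρ) (h6 : y' < y → r y' = ρ → e * (y - y') ≤ P y') :
    V y' < V y := by
  rcases lt_or_gt_of_ne h4 with h7 | h7
  · have h8 := h5 h7
    rcases Nat.lt_or_ge (r y') ρ with h9 | h9
    · exact h.a _ _ h7 h1 h9
    · have h10 : r y' = ρ := by omega
      exact (h.in_out h7 h1 h10 h2).1 (h6 h7 h10)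
  · exact h.out_out h7 h3 h2

end One

/-! ### Ranks and potentials -/

/-- the rank of the step from the row `t` -/
def rr (κ : ℕ → ℕ) (τ s t : ℕ) : ℕ := if t < τ then κ t else if t < s then κ τ else κ t + 1

/-- the potentials -/
def PP (μ R : ℕ) (x P : ℕ → ℕ) (τ s t : ℕ) : ℕ :=
  if τ ≤ t ∧ t < s then P t else if 0 < x t then 2 * (μ - x t) + 1 else 2 * (μ + R - t) + 1

/-- the rank of a point -/
def rk (N g c : ℕ) : ℕ := if c < g then c else if c < N then c + 1 else g

/-- the slope of a point -/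
def sl (R N : ℕ) (e : ℕ → ℕ) (c : ℕ) : ℕ :=
  if c < N then 2 * (R + 2) else max 1 (e (c - N) * (R + 2))

section play
variable {μ R N K τ s E : ℕ} {κ x e P : ℕ → ℕ}

theorem kmono (h : Play μ R N κ x) {a b : ℕ} (hab : a ≤ b) (hb : b < R) : κ a ≤ κ b :=
  rmono h.mono hab hb

theorem x_le (h : Play μ R N κ x) (hμ : 1 ≤ μ) {y : ℕ} (hy : y < R) : x y ≤ μ := by
  rcases Nat.lt_or_ge (y + 1) R with h1 | h1
  · exact (h.lt y h1).le
  · have h2 : y = R - 1 := by omega
    rcases Nat.lt_or_ge (κ (R - 1)) N with h3 | h3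
    · rw [h2]; exact (h.lastx h3).le
    · have h4 := h.le (R - 1) (by omega)
      have h5 := h.fin (R - 1) (by omega) (by omega)
      rw [h2, h5]
      omega

theorem rr_mono (h : Play μ R N κ x) (hts : τ < s) (hsR : s < R) (hg : κ (τ - 1) < κ τ)
    (t : ℕ) (ht : t + 1 < R) : rr κ τ s t ≤ rr κ τ s (t + 1) := by
  have h1 := h.mono t ht
  unfold rr
  rcases Nat.lt_or_ge (t + 1) τ with h2 | h2
  · rw [if_pos (by omega), if_pos h2]; exact h1
  rw [if_neg (by omega : ¬ t + 1 < τ)]
  rcases Nat.lt_or_ge t τ with h3 | h3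
  · rw [if_pos h3, if_pos (by omega)]
    exact kmono h h3.le (by omega)
  rw [if_neg (by omega)]
  rcases Nat.lt_or_ge (t + 1) s with h4 | h4
  · rw [if_pos (by omega), if_pos h4]
  rw [if_neg (by omega : ¬ t + 1 < s)]
  have h5 : κ τ ≤ κ (t + 1) := kmono h (by omega) ht
  split_ifs <;> omega

/-- the ranks of the rows and an ordinary point -/
theorem rr_ord (h : Play μ R N κ x) (hts : τ < s) (hsR : s < R) (hg : κ (τ - 1) < κ τ)
    (hp : ∀ t, τ ≤ t → t < s → κ t = κ τ) {c t : ℕ} (hc : c < N) (ht : t < R) :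
    (rr κ τ s t = rk N (κ τ) c ↔ κ t = c ∧ ¬ (τ ≤ t ∧ t < s)) ∧
      (rk N (κ τ) c < rr κ τ s t ↔ c < κ t) := by
  unfold rr rk
  rcases Nat.lt_or_ge t τ with h1 | h1
  · have h3 : κ t ≤ κ (τ - 1) := kmono h (by omega) (by omega)
    rw [if_pos h1]
    split_ifs <;> omega
  · rw [if_neg (by omega)]
    have h3 : κ τ ≤ κ t := kmono h h1 ht
    rcases Nat.lt_or_ge t s with h4 | h4
    · have h5 := hp t h1 h4
      rw [if_pos h4]
      split_ifs <;> omega
    · rw [if_neg (by omega)]
      split_ifs <;> omega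

/-- the ranks of the rows and the special points -/
theorem rr_spe (h : Play μ R N κ x) (hts : τ < s) (hsR : s < R) (hg : κ (τ - 1) < κ τ)
    {t : ℕ} (ht : t < R) :
    (rr κ τ s t = κ τ ↔ τ ≤ t ∧ t < s) ∧ (κ τ < rr κ τ s t ↔ s ≤ t) := by
  unfold rr
  rcases Nat.lt_or_ge t τ with h1 | h1
  · have h3 : κ t ≤ κ (τ - 1) := kmono h (by omega) (by omega)
    rw [if_pos h1]
    omega
  · rw [if_neg (by omega)]
    have h3 : κ τ ≤ κ t := kmono h h1 ht
    split_ifs <;> omega

theorem drop_ord (h : Play μ R N κ x) (hμ : 1 ≤ μ) {t : ℕ} (ht : t + 1 < R)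
    (hk : κ (t + 1) = κ t) (h1 : ¬ (τ ≤ t ∧ t < s)) (h2 : ¬ (τ ≤ t + 1 ∧ t + 1 < s)) :
    PP μ R x P τ s (t + 1) + 2 ≤ PP μ R x P τ s t := by
  unfold PP
  rw [if_neg h1, if_neg h2]
  have h3 := x_le h hμ ht
  have h4 := h.lt t ht
  rcases Nat.eq_zero_or_pos (x t) with h5 | h5
  · rw [if_neg (by omega : ¬ 0 < x t)]
    split_ifs <;> omega
  · have h6 := h.inc t ht h5 hk
    rw [if_pos h5, if_pos (by omega)]
    omega

end play

theorem filter_range {y : ℕ} {p : ℕ → Prop} [DecidablePred p]
    (hp : ∀ a b, a ≤ b → b < y → p b → p a) :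
    (range y).filter p = range ((range y).filter p).card := by
  induction y with
  | zero => simp
  | succ n ih =>
    by_cases h : p n
    · have h1 : (range (n + 1)).filter p = range (n + 1) := by
        apply filter_true_of_mem
        intro a ha
        rw [mem_range] at ha
        exact hp a n (by omega) (by omega) h
      rw [h1, card_range]
    · have h1 : (range (n + 1)).filter p = (range n).filter p := by
        rw [range_add_one, filter_insert, if_neg h]
      rw [h1]
      exact ih (fun a b h2 h3 h4 => hp a b h2 (by omega) h4)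

theorem lt_st {κ : ℕ → ℕ} {c y t : ℕ} (hk : ∀ a b, a ≤ b → b < y → κ a ≤ κ b) (ht : t < y) :
    t < st κ c y ↔ κ t ≤ c := by
  have h1 := filter_range (y := y) (p := fun t => κ t ≤ c)
    (fun a b h1 h2 h3 => (hk a b h1 h2).trans h3)
  have h2 : t ∈ (range y).filter (fun t => κ t ≤ c) ↔ t ∈ range (st κ c y) := by
    unfold st
    rw [← h1]
  rw [mem_range, mem_filter, mem_range] at h2
  exact ⟨fun h => (h2.2 h).2, fun h => h2.1 ⟨ht, h⟩⟩

theorem st_le {κ : ℕ → ℕ} {c y : ℕ} : st κ c y ≤ y := by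
  unfold st
  exact (card_filter_le _ _).trans (card_range y).le

section ord
variable {μ R N K τ s E : ℕ} {κ x e P : ℕ → ℕ}

/-- an ordinary point -/
theorem pri_ord (hμ : 1 ≤ μ) (hpl : Play μ R N κ x) (hts : τ < s) (hsR : s < R)
    (hpa : ∀ t, τ ≤ t → t < s → κ t = κ τ ∧ x t = na μ R t) (hg : κ (τ - 1) < κ τ)
    {c : ℕ} (hc : c < N) {V : ℕ → ℤ}
    (hV : One R (rr κ τ s) (PP μ R x P τ s) (rk N (κ τ) c) 2 V) {y : ℕ} (hy : y < R)
    (hn : 0 < va μ R κ x c y) :
    ∃ U : Finset ℕ, y ∉ U ∧ U.card + va μ R κ x c y ≤ μ ∧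
      ∀ y' < R, y' ∉ U → y' ≠ y → V y' < V y := by
  have hp1 : ∀ t, τ ≤ t → t < s → κ t = κ τ := fun t h1 h2 => (hpa t h1 h2).1
  obtain ⟨h1, h2⟩ := rr_ord hpl hts hsR hg hp1 hc hy
  rcases lt_trichotomy (rr κ τ s y) (rk N (κ τ) c) with h3 | h3 | h3
  · have h4 : va μ R κ x c y = na μ R y := by
      unfold va
      rcases Nat.lt_or_ge (κ y) c with h5 | h5
      · rw [if_pos h5]
      · rw [if_neg (by omega)]
        have h6 : κ y = c := by omega
        have h7 : τ ≤ y ∧ y < s := by
          by_contra h8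
          have := h1.2 ⟨h6, h8⟩
          omega
        unfold nn
        rw [if_neg (by omega), if_pos h6]
        exact (hpa y h7.1 h7.2).2
    rw [h4] at hn ⊢
    refine ⟨Ioo y R, by simp, ?_, ?_⟩
    · rw [Nat.card_Ioo]
      unfold na at hn ⊢
      omega
    · intro y' h5 h6 h7
      rw [mem_Ioo] at h6
      exact hV.before hy h3 (by omega)
  · have h4 := h1.1 h3
    have h5 : va μ R κ x c y = x y := by
      unfold va nn
      rw [if_neg (by omega), if_neg (by omega), if_pos h4.1]
    rw [h5] at hn ⊢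
    have h6 := x_le hpl hμ hy
    refine ⟨Ioc y (y + (μ - x y)), by simp, ?_, ?_⟩
    · rw [Nat.card_Ioc]
      omega
    · intro y' h7 h8 h9
      rw [mem_Ioc] at h8
      refine hV.inside hy h3 h7 h9 ?_
      intro h10
      unfold PP
      rw [if_neg h4.2, if_pos hn]
      omega
  · have h4 := h2.1 h3
    have h5 : va μ R κ x c y =
        μ - (y - st κ c y) - (mv κ x (fun _ => μ) c y).card := by
      unfold va nn
      rw [if_neg (by omega), if_neg (by omega), if_neg (by omega)]
    rw [h5] at hn ⊢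
    have hst := st_le (κ := κ) (c := c) (y := y)
    refine ⟨Ico (st κ c y) y ∪ mv κ x (fun _ => μ) c y, ?_, ?_, ?_⟩
    · simp [mv]
    · have h6 := card_union_le (Ico (st κ c y) y) (mv κ x (fun _ => μ) c y)
      rw [Nat.card_Ico] at h6
      omega
    · intro y' h6 h7 h8
      rw [mem_union, mem_Ico] at h7
      have h9 : y' < y → κ y' ≤ c := by
        intro h10
        refine (lt_st (κ := κ) (fun a b h11 h12 => kmono hpl h11 (by omega)) h10).1 ?_
        by_contra h13
        exact h7 (Or.inl ⟨by omega, h10⟩)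
      obtain ⟨h10, h11⟩ := rr_ord hpl hts hsR hg hp1 hc h6
      refine hV.after hy h3 h6 h8 ?_ ?_
      · intro h12
        have := h9 h12
        by_contra h13
        have := h11.1 (by omega)
        omega
      · intro h12 h13
        have h14 := h10.1 h13
        unfold PP
        rw [if_neg h14.2]
        rcases Nat.eq_zero_or_pos (x y') with h15 | h15
        · rw [if_neg (by omega)]
          omega
        · rw [if_pos h15]
          have h16 : ¬ (μ + y' < x y' + y) := by
            intro h17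
            refine h7 (Or.inr ?_)
            unfold mv
            rw [mem_filter, mem_range]
            exact ⟨h12, h14.1, h15, h17⟩
          omega

end ord

section spe
variable {μ R N K τ s E : ℕ} {κ x e P : ℕ → ℕ}

theorem drop_spe {a : ℕ} (hd : ∀ t, τ ≤ t → t + 1 < s → P (t + 1) + a ≤ P t) {t : ℕ}
    (ht : τ ≤ t) (n : ℕ) (hn : t + n < s) : P (t + n) + a * n ≤ P t := by
  induction n with
  | zero => simp
  | succ n ih =>
    have h1 := ih (by omega)
    have h2 := hd (t + n) (by omega) (by omega)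
    have h3 : P (t + (n + 1)) + a ≤ P (t + n) := h2
    calc P (t + (n + 1)) + a * (n + 1) = (P (t + (n + 1)) + a) + a * n := by ring
      _ ≤ P (t + n) + a * n := by omega
      _ ≤ P t := h1

/-- a special point -/
theorem pri_spe (hpl : Play μ R N κ x) (hgr : Grp μ R K τ s E e P) (hg : κ (τ - 1) < κ τ)
    {i : ℕ} (hi : i < K) {V : ℕ → ℤ}
    (hV : One R (rr κ τ s) (PP μ R x P τ s) (κ τ) (e i) V) {y : ℕ} (hy : y < R)
    (hn : 0 < va μ R (gk s e P i) (gx μ τ s e P i) 0 y) :
    ∃ U : Finset ℕ, y ∉ U ∧ U.card + va μ R (gk s e P i) (gx μ τ s e P i) 0 y ≤ μ ∧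
      ∀ y' < R, y' ∉ U → y' ≠ y → V y' < V y := by
  have hts := hgr.ts
  have hsR := hgr.sR
  obtain ⟨he1, he2, he3⟩ := hgr.e1 i hi
  have hd : ∀ t, τ ≤ t → t + 1 < s → P (t + 1) + e i ≤ P t := fun t h1 h2 =>
    (Nat.add_le_add_left he2 _).trans (hgr.dr t h1 h2)
  have hgs : gs s e P i ≤ s ∧ s - 1 ≤ gs s e P i := by
    unfold gs; split_ifs <;> omega
  obtain ⟨h1, h2⟩ := rr_spe hpl (by omega) (by omega) hg hy (s := s) (τ := τ)
  rcases Nat.lt_or_ge y τ with h3 | h3
  · exfalso
    have h4 : va μ R (gk s e P i) (gx μ τ s e P i) 0 y = 0 := by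
      unfold va nn
      rw [if_neg (by omega), if_neg (by omega)]
      have h5 : gk s e P i y = 0 := by
        unfold gk; rw [if_pos (by omega)]
      have h6 : gx μ τ s e P i y = 0 := by
        unfold gx; rw [if_neg (by omega)]
      rw [if_pos h5, h6]
    omega
  rcases Nat.lt_or_ge y s with h4 | h4
  · have h5 := h1.2 ⟨h3, h4⟩
    have hPP : PP μ R x P τ s y = P y := by
      unfold PP; rw [if_pos ⟨h3, h4⟩]
    have h6 : P y / e i + va μ R (gk s e P i) (gx μ τ s e P i) 0 y ≤ μ := by
      rcases Nat.lt_or_ge y (gs s e P i) with h7 | h7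
      · have h8 : va μ R (gk s e P i) (gx μ τ s e P i) 0 y = μ - P y / e i := by
          unfold va nn
          have h5 : gk s e P i y = 0 := by
            unfold gk; rw [if_pos (by omega)]
          have h6 : gx μ τ s e P i y = μ - P y / e i := by
            unfold gx; rw [if_pos ⟨h3, h7⟩]
          rw [if_neg (by omega), if_neg (by omega), if_pos h5, h6]
        omega
      · have h8 : y = s - 1 := by omega
        have h9 : P y < e i := by
          by_contra h10
          have h11 : gs s e P i = s := by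
            unfold gs
            rw [if_pos (by rw [← h8]; omega)]
          omega
        rw [Nat.div_eq_of_lt h9, zero_add]
        unfold va nn
        have h5 : gk s e P i y = 1 := by
          unfold gk; rw [if_neg (by omega)]
        rw [if_neg (by omega), if_neg (by omega), if_neg (by omega)]
        exact (Nat.sub_le _ _).trans (Nat.sub_le _ _)
    refine ⟨Ioc y (y + P y / e i), by simp, ?_, ?_⟩
    · rw [Nat.card_Ioc, Nat.add_sub_cancel_left]
      exact h6
    · intro y' h7 h8 h9
      rw [mem_Ioc] at h8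
      refine hV.inside hy h5 h7 h9 ?_
      intro h10
      rw [hPP, mul_comm]
      refine (Nat.div_lt_iff_lt_mul he1).1 ?_
      omega
  · have h5 := h2.2 h4
    have hgk : gk s e P i y = 1 := by
      unfold gk; rw [if_neg (by omega)]
    have hmono : ∀ a b, a ≤ b → b < y → gk s e P i a ≤ gk s e P i b := by
      intro a b hab hb
      unfold gk
      split_ifs <;> omega
    have hst : st (gk s e P i) 0 y = gs s e P i := by
      have h6 := st_le (κ := gk s e P i) (c := 0) (y := y)
      have h7 : ∀ t < y, (t < st (gk s e P i) 0 y ↔ t < gs s e P i) := by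
        intro t ht
        rw [lt_st hmono ht]
        unfold gk
        split_ifs <;> omega
      rcases lt_trichotomy (st (gk s e P i) 0 y) (gs s e P i) with h8 | h8 | h8
      · have := (h7 (st (gk s e P i) 0 y) (by omega)).2 h8
        omega
      · exact h8
      · have := (h7 (gs s e P i) (by omega)).1 h8
        omega
    have h6 : va μ R (gk s e P i) (gx μ τ s e P i) 0 y =
        μ - (y - gs s e P i) - (mv (gk s e P i) (gx μ τ s e P i) (fun _ => μ) 0 y).card := by
      unfold va nn
      rw [if_neg (by omega), if_neg (by omega), if_neg (by omega), hst]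
    rw [h6] at hn ⊢
    refine ⟨Ico (gs s e P i) y ∪ mv (gk s e P i) (gx μ τ s e P i) (fun _ => μ) 0 y, ?_, ?_, ?_⟩
    · simp [mv]
    · have h7 := card_union_le (Ico (gs s e P i) y)
        (mv (gk s e P i) (gx μ τ s e P i) (fun _ => μ) 0 y)
      rw [Nat.card_Ico] at h7
      omega
    · intro y' h7 h8 h9
      rw [mem_union, mem_Ico] at h8
      obtain ⟨h10, h11⟩ := rr_spe hpl (by omega) (by omega) hg h7 (s := s) (τ := τ)
      have h12 : y' < y → y' < gs s e P i := by
        intro h13
        by_contra h14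
        exact h8 (Or.inl ⟨by omega, h13⟩)
      refine hV.after hy h5 h7 h9 ?_ ?_
      · intro h13
        have := h12 h13
        by_contra h14
        have := h11.1 (by omega)
        omega
      · intro h13 h14
        have h15 := h10.1 h14
        have h16 := h12 h13
        have hPP : PP μ R x P τ s y' = P y' := by
          unfold PP; rw [if_pos h15]
        rw [hPP]
        by_contra h17
        have h18 : P y' / e i < y - y' := by
          rw [Nat.div_lt_iff_lt_mul he1, mul_comm]
          omega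
        have key : ∀ t, y' ≤ t → t < gs s e P i → P t / e i < μ → P t / e i + t < y →
            t ∈ mv (gk s e P i) (gx μ τ s e P i) (fun _ => μ) 0 y := by
          intro t t1 t2 t3 t4
          unfold mv
          rw [mem_filter, mem_range]
          have t5 : gk s e P i t = 0 := by
            unfold gk; rw [if_pos t2]
          have t6 : gx μ τ s e P i t = μ - P t / e i := by
            unfold gx; rw [if_pos ⟨by omega, t2⟩]
          rw [t5, t6]
          generalize P t / e i = q at *
          refine ⟨by omega, rfl, by omega, ?_⟩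
          show μ + t < μ - q + y
          omega
        rcases Nat.lt_or_ge (P y' / e i) μ with h19 | h19
        · exact h8 (Or.inr (key y' le_rfl h16 h19 (by omega)))
        · have h20 : Ico (y - μ) (gs s e P i) ⊆
              mv (gk s e P i) (gx μ τ s e P i) (fun _ => μ) 0 y := by
            intro t ht
            rw [mem_Ico] at ht
            have t1 : y' ≤ t := by
              have t0 := h19.trans_lt h18
              omega
            obtain ⟨n, rfl⟩ : ∃ n, t = y' + n := ⟨t - y', by omega⟩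
            have t2 := drop_spe hd h15.1 n (by omega)
            have t3 : P (y' + n) / e i + n ≤ P y' / e i := by
              have t4 := Nat.div_le_div_right (c := e i) t2
              rwa [Nat.add_mul_div_left _ _ he1] at t4
            generalize P y' / e i = qa at t3 h18 h19
            exact key _ t1 ht.2 (by generalize P (y' + n) / e i = qb at *; omega)
              (by generalize P (y' + n) / e i = qb at *; omega)
          have h21 := card_le_card h20
          rw [Nat.card_Ico] at h21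
          have h22 := h19.trans_lt h18
          clear h18 h19 h17 h20 key
          omega

end spe

theorem dl_pos {R : ℕ} {r P : ℕ → ℕ} (t : ℕ) : 1 ≤ dl R r P t := by
  unfold dl
  split_ifs <;> omega

theorem sl_pos {R N : ℕ} {e : ℕ → ℕ} (c : ℕ) : 1 ≤ sl R N e c := by
  unfold sl
  split_ifs <;> omega

theorem goalPG (hPA : GoalPA) : GoalPG := by
  intro μ R N K τ s E κ x e P hμ hR hpl hgr hpa hg hgN
  have hts : τ < s := by have := hgr.ts; omega
  have hsR : s < R := by have := hgr.sR; omega
  have hp1 : ∀ t, τ ≤ t → t < s → κ t = κ τ := fun t h1 h2 => (hpa t h1 h2).1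
  have hr := rr_mono hpl hts hsR hg
  obtain ⟨π, ε, H⟩ := hPA R (N + K) (rr κ τ s) (dl R (rr κ τ s) (PP μ R x P τ s))
    (rk N (κ τ)) (sl R N e) hr dl_pos sl_pos
  refine ⟨π, ε, ?_⟩
  intro c hc y hy hn
  have Hc := H c hc
  unfold comb at hn ⊢
  rcases Nat.lt_or_ge c N with h1 | h1
  · rw [if_pos h1] at hn ⊢
    have hV : One R (rr κ τ s) (PP μ R x P τ s) (rk N (κ τ) c) 2
        (fun z => π z - ε c * z) := by
      have hs : sl R N e c = 2 * (R + 2) := by unfold sl; rw [if_pos h1]
      rw [hs] at Hc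
      refine ⟨hr, by omega, ?_, ?_, ?_, ?_⟩
      · intro t ht h2 h3
        have h4 := (rr_ord hpl hts hsR hg hp1 h1 (by omega : t < R)).1.1 h2
        have h5 := (rr_ord hpl hts hsR hg hp1 h1 ht).1.1 h3
        exact drop_ord hpl hμ ht (by omega) h4.2 h5.2
      · exact fun y z h2 h3 => (Hc y z h2 h3).1
      · exact fun y z h2 h3 => (Hc y z h2 h3).2.1
      · exact fun y z h2 h3 => (Hc y z h2 h3).2.2
    exact pri_ord hμ hpl hts hsR hpa hg h1 hV hy hn
  · rw [if_neg (by omega)] at hn ⊢
    have h2 : c - N < K := by omega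
    obtain ⟨he1, he2, he3⟩ := hgr.e1 _ h2
    have hV : One R (rr κ τ s) (PP μ R x P τ s) (κ τ) (e (c - N))
        (fun z => π z - ε c * z) := by
      have hs : sl R N e c = e (c - N) * (R + 2) := by
        unfold sl
        rw [if_neg (by omega)]
        refine max_eq_right ?_
        have : 0 < e (c - N) * (R + 2) := by positivity
        omega
      have hk : rk N (κ τ) c = κ τ := by
        unfold rk
        rw [if_neg (by omega), if_neg (by omega)]
      rw [hs, hk] at Hc
      refine ⟨hr, he1, ?_, ?_, ?_, ?_⟩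
      · intro t ht h3 h4
        have h5 := (rr_spe hpl hts hsR hg (by omega : t < R)).1.1 h3
        have h6 := (rr_spe hpl hts hsR hg ht).1.1 h4
        unfold PP
        rw [if_pos h5, if_pos h6]
        exact (Nat.add_le_add_left he2 _).trans (hgr.dr t h5.1 h6.2)
      · exact fun y z h2 h3 => (Hc y z h2 h3).1
      · exact fun y z h2 h3 => (Hc y z h2 h3).2.1
      · exact fun y z h2 h3 => (Hc y z h2 h3).2.2
    exact pri_spe hpl hgr hg h2 hV hy hn

end Pool.Agent.Helper16.EW
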